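import Pool.Agent.Helper3.AK.Goals1

/-!
# AK-DDP: product formula
-/

namespace Pool.Agent.Helper90.AK

open Equiv Pool.Agent.Helper3.AK

variable {n r : ℕ}

/-- sum of products over functions -/
lemma sum_prod_fun {r : ℕ} (f : Fin r → Bool → ℝ) :
    ∑ s : Fin r → Bool, ∏ i, f i (s i) = ∏ i, ∑ b : Bool, f i b := by
  rw [Finset.prod_univ_sum, Fintype.piFinset_univ]

lemma tst_sum (c : Pts n r) (h : (Fin r ↪ Fin n) → ℝ) :
    ∑ a, tst c a * h a = ∑ s : Fin r → Bool, sgn s * h (pick c s) := by
  classical
  simp only [tst, Finset.sum_mul]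
  rw [Finset.sum_comm]
  refine Finset.sum_congr rfl fun s _ => ?_
  rw [Finset.sum_eq_single (pick c s)]
  · rw [if_pos rfl]
  · intro a _ ha
    rw [if_neg (fun h => ha h.symm), zero_mul]
  · intro h
    exact absurd (Finset.mem_univ _) h

lemma pick_eq_iff (c : Pts n r) (w : Perm (Fin n)) (s s' : Fin r → Bool) :
    pick c s' = (pick c s).trans w.toEmbedding ↔ ∀ i, w (c (i, s i)) = c (i, s' i) := by
  constructor
  · intro h i
    have h1 := congrArg (fun a : Fin r ↪ Fin n => a i) h
    exact h1.symm
  · intro h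
    ext i
    exact congrArg Fin.val (h i).symm

/-- **DDP**. -/
theorem ddp : S_DDP := by
  intro n r c w
  refine ⟨?_, ?_⟩
  · classical
    have h1 : ip (tst c) (Act w (tst c)) = ∑ s : Fin r → Bool, ∑ s' : Fin r → Bool,
        ∏ i, ((if s i then (-1 : ℝ) else 1) * ((if s' i then (-1 : ℝ) else 1) *
          if w (c (i, s i)) = c (i, s' i) then 1 else 0)) := by
      unfold ip
      rw [tst_sum]
      refine Finset.sum_congr rfl fun s _ => ?_
      rw [Act_apply, tst, Finset.mul_sum]
      refine Finset.sum_congr rfl fun s' _ => ?_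
      rw [Finset.prod_mul_distrib, Finset.prod_mul_distrib, sgn]
      refine congrArg₂ (· * ·) rfl ?_
      by_cases h : pick c s' = (pick c s).trans w.toEmbedding
      · rw [if_pos h]
        have h2 := (pick_eq_iff c w s s').1 h
        rw [Finset.prod_congr rfl (fun i _ => if_pos (h2 i)), Finset.prod_const_one, mul_one, sgn]
      · rw [if_neg h]
        have h2 : ∃ i, ¬ w (c (i, s i)) = c (i, s' i) := by
          by_contra h3
          push Not at h3
          exact h ((pick_eq_iff c w s s').2 h3)
        obtain ⟨i, hi⟩ := h2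
        rw [Finset.prod_eq_zero (f := fun i => if w (c (i, s i)) = c (i, s' i) then (1 : ℝ) else 0)
          (Finset.mem_univ i) (if_neg hi), mul_zero]
    rw [h1]
    have h2 : ∀ s : Fin r → Bool, ∑ s' : Fin r → Bool,
        ∏ i, ((if s i then (-1 : ℝ) else 1) * ((if s' i then (-1 : ℝ) else 1) *
          if w (c (i, s i)) = c (i, s' i) then 1 else 0)) =
        ∏ i, ∑ b : Bool, ((if s i then (-1 : ℝ) else 1) * ((if b then (-1 : ℝ) else 1) *
          if w (c (i, s i)) = c (i, b) then 1 else 0)) := fun s =>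
      sum_prod_fun (fun i b => (if s i then (-1 : ℝ) else 1) * ((if b then (-1 : ℝ) else 1) *
          if w (c (i, s i)) = c (i, b) then 1 else 0))
    rw [Finset.sum_congr rfl fun s _ => h2 s]
    rw [sum_prod_fun (fun i b' => ∑ b : Bool, ((if b' then (-1 : ℝ) else 1) *
      ((if b then (-1 : ℝ) else 1) * if w (c (i, b')) = c (i, b) then 1 else 0)))]
    refine Finset.prod_congr rfl fun i _ => ?_
    rw [Fintype.sum_bool, Fintype.sum_bool, Fintype.sum_bool, DD]
    simp only [if_true, Bool.false_eq_true, if_false]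
    ring
  · intro i
    have h0 : ∀ p : Prop, ∀ [Decidable p], (0 : ℝ) ≤ (if p then 1 else 0) ∧
        (if p then (1 : ℝ) else 0) ≤ 1 := by
      intro p _
      split_ifs <;> norm_num
    have h1 := h0 (w (c (i, false)) = c (i, false))
    have h2 := h0 (w (c (i, true)) = c (i, true))
    have h3 := h0 (w (c (i, false)) = c (i, true))
    have h4 := h0 (w (c (i, true)) = c (i, false))
    rw [DD, abs_le]
    constructor
    · linarith [h1.1, h2.1, h3.2, h4.2]
    · linarith [h1.2, h2.2, h3.1, h4.1]

end Pool.Agent.Helper90.AK
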