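import Pool.Agent.Helper3.AK.Goals4

/-!
# AK-RT: random roots in a set
-/

namespace Pool.Agent.Helper90.AK

open Equiv Pool.Agent.Helper3.AK

lemma desc_mul_pow {h n : ℕ} (hn : h ≤ n) (q : ℕ) :
    h.descFactorial q * n ^ q ≤ n.descFactorial q * h ^ q := by
  induction q with
  | zero => simp
  | succ q ih =>
    rw [Nat.descFactorial_succ, Nat.descFactorial_succ]
    have h1 : (h - q) * n ≤ (n - q) * h := by
      rcases Nat.lt_or_ge h q with h2 | h2
      · rw [Nat.sub_eq_zero_of_le h2.le]
        simp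
      · obtain ⟨a, rfl⟩ := Nat.exists_eq_add_of_le h2
        obtain ⟨b, rfl⟩ := Nat.exists_eq_add_of_le hn
        have h3 : q + a - q = a := by omega
        have h4 : q + a + b - q = a + b := by omega
        rw [h3, h4]
        nlinarith [Nat.zero_le (a * q), Nat.zero_le (b * q), Nat.zero_le (a * b)]
    calc (h - q) * h.descFactorial q * n ^ (q + 1)
        = ((h - q) * n) * (h.descFactorial q * n ^ q) := by ring
      _ ≤ ((n - q) * h) * (n.descFactorial q * h ^ q) := Nat.mul_le_mul h1 ih
      _ = (n - q) * n.descFactorial q * h ^ (q + 1) := by ring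

section count

variable {ι : Type} [Fintype ι] [DecidableEq ι] {n : ℕ}

/-- restriction to `Q` -/
def resQ (Q : Finset ι) (B : Finset (Fin n)) (c : {c : ι ↪ Fin n // ∀ q ∈ Q, c q ∈ B}) :
    Q ↪ B where
  toFun q := ⟨c.1 q, c.2 q q.2⟩
  inj' a b h := by
    have h1 : c.1 (a : ι) = c.1 (b : ι) := congrArg Subtype.val h
    exact Subtype.ext (c.1.injective h1)

lemma fib_card (Q : Finset ι) (B : Finset (Fin n)) (f : Q ↪ B) :
    (Finset.univ.filter fun c : {c : ι ↪ Fin n // ∀ q ∈ Q, c q ∈ B} => resQ Q B c = f).card ≤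
      (n - Q.card).descFactorial (Fintype.card ι - Q.card) := by
  classical
  have hc1 : Fintype.card {i : ι // i ∉ Q} = Fintype.card ι - Q.card := by
    rw [Fintype.card_subtype_compl, Fintype.card_coe]
  let f' : Q ↪ Fin n := f.trans (Function.Embedding.subtype _)
  have hc2 : Fintype.card {y : Fin n // y ∉ Finset.univ.map f'} = n - Q.card := by
    rw [Fintype.card_subtype_compl, Fintype.card_coe, Fintype.card_fin, Finset.card_map,
      Finset.card_univ, Fintype.card_coe]
  have hc3 : Fintype.card ({i : ι // i ∉ Q} ↪ {y : Fin n // y ∉ Finset.univ.map f'}) =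
      (n - Q.card).descFactorial (Fintype.card ι - Q.card) := by
    rw [Fintype.card_embedding_eq, hc1, hc2]
  rw [← hc3, ← Fintype.card_subtype]
  let g : {c : {c : ι ↪ Fin n // ∀ q ∈ Q, c q ∈ B} // resQ Q B c = f} →
      ({i : ι // i ∉ Q} ↪ {y : Fin n // y ∉ Finset.univ.map f'}) := fun c =>
    { toFun := fun i => ⟨c.1.1 i, by
        intro hmem
        obtain ⟨q, -, hq⟩ := Finset.mem_map.1 hmem
        have h1 : f' q = c.1.1 q := by
          exact (congrArg (fun e : Q ↪ B => ((e q : B) : Fin n)) c.2).symm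
        rw [h1] at hq
        have h3 := c.1.1.injective hq
        exact i.2 (h3 ▸ q.2)⟩
      inj' := fun a b h => by
        have h1 : c.1.1 (a : ι) = c.1.1 (b : ι) := congrArg Subtype.val h
        exact Subtype.ext (c.1.1.injective h1) }
  refine Fintype.card_le_of_injective g ?_
  intro c d hcd
  apply Subtype.ext
  apply Subtype.ext
  ext i
  by_cases hi : i ∈ Q
  · have h1 : resQ Q B c.1 = resQ Q B d.1 := c.2.trans d.2.symm
    have h2 := congrArg (fun e : Q ↪ B => ((e ⟨i, hi⟩ : B) : Fin n)) h1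
    exact congrArg Fin.val h2
  · have h2 := congrArg (fun e : {i : ι // i ∉ Q} ↪ {y : Fin n // y ∉ Finset.univ.map f'} =>
      ((e ⟨i, hi⟩ : {y : Fin n // y ∉ Finset.univ.map f'}) : Fin n)) hcd
    exact congrArg Fin.val h2

lemma count_emb (Q : Finset ι) (B : Finset (Fin n)) :
    Fintype.card {c : ι ↪ Fin n // ∀ q ∈ Q, c q ∈ B} ≤
      (n - Q.card).descFactorial (Fintype.card ι - Q.card) * B.card.descFactorial Q.card := by
  classical
  have h1 := Finset.card_le_mul_card_image_of_maps_to
    (s := (Finset.univ : Finset {c : ι ↪ Fin n // ∀ q ∈ Q, c q ∈ B}))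
    (t := (Finset.univ : Finset (Q ↪ B))) (f := resQ Q B) (fun _ _ => Finset.mem_univ _)
    ((n - Q.card).descFactorial (Fintype.card ι - Q.card)) (fun f _ => fib_card Q B f)
  rw [Finset.card_univ, Finset.card_univ, Fintype.card_embedding_eq, Fintype.card_coe,
    Fintype.card_coe] at h1
  exact h1

end count

/-- **RT**. -/
theorem rt : S_RT := by
  classical
  intro n r r₁ w H hr hn
  have hcardι : Fintype.card (Fin r × Bool) = 2 * r := by
    rw [Fintype.card_prod, Fintype.card_fin, Fintype.card_bool, mul_comm]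
  have hHn : H.card ≤ n := by
    have := H.card_le_univ
    rwa [Fintype.card_fin] at this
  have hn0 : (0 : ℝ) < n := by exact_mod_cast hn
  let B : Finset (Fin n) := H.map w.symm.toEmbedding
  have hBcard : B.card = H.card := Finset.card_map _
  have hB : ∀ y, y ∈ B ↔ w y ∈ H := by
    intro y
    constructor
    · intro hy
      obtain ⟨z, hz, rfl⟩ := Finset.mem_map.1 hy
      have h1 : w (w.symm.toEmbedding z) = z := w.apply_symm_apply z
      rw [h1]
      exact hz
    · intro hy
      exact Finset.mem_map.2 ⟨w y, hy, w.symm_apply_apply y⟩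
  have hbound : ∀ Q ∈ (Finset.univ : Finset (Fin r × Bool)).powersetCard r₁,
      ((Finset.univ.filter fun c : Pts n r => ∀ q ∈ Q, c q ∈ B).card : ℝ) ≤
        (n.descFactorial (2 * r) : ℝ) * ((H.card : ℝ) / n) ^ r₁ := by
    intro Q hQ
    obtain ⟨-, hQc⟩ := Finset.mem_powersetCard.1 hQ
    have hQle : r₁ ≤ 2 * r := by
      rw [← hQc, ← hcardι]
      exact Q.card_le_univ
    have h1 := count_emb Q B
    rw [Fintype.card_subtype, hcardι, hQc, hBcard] at h1
    have h2 : (n - r₁).descFactorial (2 * r - r₁) * n.descFactorial r₁ =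
        n.descFactorial (2 * r) := Nat.descFactorial_mul_descFactorial hQle
    have h3 := desc_mul_pow hHn r₁
    have h4 : ((n - r₁).descFactorial (2 * r - r₁) * H.card.descFactorial r₁ : ℕ) * n ^ r₁ ≤
        n.descFactorial (2 * r) * H.card ^ r₁ := by
      calc ((n - r₁).descFactorial (2 * r - r₁) * H.card.descFactorial r₁ : ℕ) * n ^ r₁
          = (n - r₁).descFactorial (2 * r - r₁) * (H.card.descFactorial r₁ * n ^ r₁) := by ring
        _ ≤ (n - r₁).descFactorial (2 * r - r₁) * (n.descFactorial r₁ * H.card ^ r₁) :=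
            Nat.mul_le_mul_left _ h3
        _ = n.descFactorial (2 * r) * H.card ^ r₁ := by rw [← h2]; ring
    have h5 : ((Finset.univ.filter fun c : Pts n r => ∀ q ∈ Q, c q ∈ B).card : ℝ) * n ^ r₁ ≤
        (n.descFactorial (2 * r) : ℝ) * (H.card : ℝ) ^ r₁ := by
      have h6 := (Nat.mul_le_mul_right (n ^ r₁) h1).trans h4
      exact_mod_cast h6
    rw [div_pow, ← mul_div_assoc, le_div_iff₀ (by positivity)]
    exact h5
  have hsub : (Finset.univ.filter fun c : Pts n r =>
      r₁ ≤ (Finset.univ.filter fun q => w (c q) ∈ H).card) ⊆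
      ((Finset.univ : Finset (Fin r × Bool)).powersetCard r₁).biUnion
        (fun Q => Finset.univ.filter fun c : Pts n r => ∀ q ∈ Q, c q ∈ B) := by
    intro c hc
    have h1 := (Finset.mem_filter.1 hc).2
    obtain ⟨Q, hQ, hQc⟩ := Finset.exists_subset_card_eq h1
    refine Finset.mem_biUnion.2 ⟨Q, Finset.mem_powersetCard.2 ⟨Finset.subset_univ _, hQc⟩, ?_⟩
    refine Finset.mem_filter.2 ⟨Finset.mem_univ _, fun q hq => ?_⟩
    exact (hB _).2 (Finset.mem_filter.1 (hQ hq)).2
  have hcnt : ((Finset.univ : Finset (Fin r × Bool)).powersetCard r₁).card ≤ 4 ^ r := by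
    calc ((Finset.univ : Finset (Fin r × Bool)).powersetCard r₁).card
        ≤ (Finset.univ : Finset (Fin r × Bool)).powerset.card :=
          Finset.card_le_card (fun Q hQ =>
            Finset.mem_powerset.2 (Finset.mem_powersetCard.1 hQ).1)
      _ = 2 ^ (2 * r) := by rw [Finset.card_powerset, Finset.card_univ, hcardι]
      _ = 4 ^ r := by rw [pow_mul]; norm_num
  have hK : (0 : ℝ) ≤ (n.descFactorial (2 * r) : ℝ) * ((H.card : ℝ) / n) ^ r₁ := by positivity
  calc (Nat.card {c : Pts n r // r₁ ≤ (Finset.univ.filter fun q => w (c q) ∈ H).card} : ℝ)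
      = ((Finset.univ.filter fun c : Pts n r =>
        r₁ ≤ (Finset.univ.filter fun q => w (c q) ∈ H).card).card : ℝ) := by
        rw [Nat.card_eq_fintype_card, Fintype.card_subtype]
    _ ≤ ((((Finset.univ : Finset (Fin r × Bool)).powersetCard r₁).biUnion
        (fun Q => Finset.univ.filter fun c : Pts n r => ∀ q ∈ Q, c q ∈ B)).card : ℝ) := by
        exact_mod_cast Finset.card_le_card hsub
    _ ≤ ∑ Q ∈ (Finset.univ : Finset (Fin r × Bool)).powersetCard r₁,
        ((Finset.univ.filter fun c : Pts n r => ∀ q ∈ Q, c q ∈ B).card : ℝ) := by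
        exact_mod_cast Finset.card_biUnion_le
    _ ≤ ∑ Q ∈ (Finset.univ : Finset (Fin r × Bool)).powersetCard r₁,
        (n.descFactorial (2 * r) : ℝ) * ((H.card : ℝ) / n) ^ r₁ := Finset.sum_le_sum hbound
    _ = (((Finset.univ : Finset (Fin r × Bool)).powersetCard r₁).card : ℝ) *
        ((n.descFactorial (2 * r) : ℝ) * ((H.card : ℝ) / n) ^ r₁) := by
        rw [Finset.sum_const, nsmul_eq_mul]
    _ ≤ (4 : ℝ) ^ r * ((n.descFactorial (2 * r) : ℝ) * ((H.card : ℝ) / n) ^ r₁) := by
        refine mul_le_mul_of_nonneg_right ?_ hK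
        exact_mod_cast hcnt
    _ = (n.descFactorial (2 * r) : ℝ) * 4 ^ r * ((H.card : ℝ) / n) ^ r₁ := by ring

end Pool.Agent.Helper90.AK
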